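import Pool.Agent.U41.OD.Stm

/-!
Project OD (helper41), package L (helper364): every local ring of the blowing up is of type P, A or B.
-/

set_option autoImplicit false

open scoped Pointwise

namespace Pool.Agent.U41.OD

open Pool.Agent.H918R2.Quad Pool.Agent.H945R2.E Pool.Agent.W418 Pool.Agent.TH214.RM MvPolynomial

namespace L364

theorem pow_fac {F : Type} [Field F] (C : Subring F) (A : Set F) (b : F)
    (h : ∀ a ∈ A, ∃ c ∈ C, a = b * c) (m : ℕ) : ∀ a ∈ A ^ m, ∃ c ∈ C, a = b ^ m * c := by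
  induction m with
  | zero =>
    intro a ha
    rw [pow_zero, Set.mem_one] at ha
    exact ⟨1, C.one_mem, by rw [ha, pow_zero, mul_one]⟩
  | succ m ih =>
    intro a ha
    rw [pow_succ, Set.mem_mul] at ha
    obtain ⟨a₁, ha₁, a₂, ha₂, rfl⟩ := ha
    obtain ⟨c₁, hc₁, rfl⟩ := ih a₁ ha₁
    obtain ⟨c₂, hc₂, rfl⟩ := h a₂ ha₂
    exact ⟨c₁ * c₂, C.mul_mem hc₁ hc₂, by ring⟩

theorem prod_fac {F : Type} [Field F] (C : Subring F) (A : ℕ → Set F) (b : ℕ → F) (N : ℕ)
    (h : ∀ i < N, ∀ a ∈ A i, ∃ c ∈ C, a = b i * c) :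
    ∀ a ∈ ∏ i ∈ Finset.range N, A i, ∃ c ∈ C, a = (∏ i ∈ Finset.range N, b i) * c := by
  induction N with
  | zero =>
    intro a ha
    rw [Finset.range_zero, Finset.prod_empty, Set.mem_one] at ha
    exact ⟨1, C.one_mem, by rw [ha, Finset.range_zero, Finset.prod_empty, mul_one]⟩
  | succ N ih =>
    intro a ha
    rw [Finset.prod_range_succ, Set.mem_mul] at ha
    obtain ⟨a₁, ha₁, a₂, ha₂, rfl⟩ := ha
    obtain ⟨c₁, hc₁, rfl⟩ := ih (fun i hi => h i (by omega)) a₁ ha₁
    obtain ⟨c₂, hc₂, rfl⟩ := h N (by omega) a₂ ha₂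
    exact ⟨c₁ * c₂, C.mul_mem hc₁ hc₂, by rw [Finset.prod_range_succ]; ring⟩

section

variable {R F ι : Type} [CommRing R] [Field F] [Algebra R F] {π : R} {x : ι → F} {o : ι} {J D : ℕ}
  {𝒪 : Subring F} {f : F}

/-- The general lemma on fractions. -/
theorem frac_main (hl : IsLoc 𝒪) (hR : ∀ r : R, algebraMap R F r ∈ 𝒪) (hf : f ≠ 0)
    (hfS : f ∈ Submodule.span R (GD π x o J D)) (hS : ∀ h ∈ GD π x o J D, h / f ∈ 𝒪)
    (hloc : IsLocOf 𝒪 (chart R (Submodule.span R (GD π x o J D)) f))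
    (C : Subalgebra R F) (hC : ∀ c ∈ C, c ∈ 𝒪) (b₀ : F) (b : ℕ → F) (hb₀ : b₀ ∈ Set.range x)
    (hb₀' : b₀ ≠ 0) (hb' : ∀ i < J, b i ≠ 0) (hb : ∀ i < J, b i ∈ cen π x o (i + 1))
    (h1 : ∀ l, ∃ c ∈ C, x l = b₀ * c)
    (h2 : ∀ i < J, ∀ a ∈ cen π x o (i + 1), ∃ c ∈ C, a = b i * c) :
    ∀ y ∈ 𝒪, ∃ a ∈ C, ∃ b ∈ C, U 𝒪 b ∧ y = a / b := by
  set h : F := b₀ ^ (D - J) * ∏ i ∈ Finset.range J, b i with hh
  have hne : h ≠ 0 := mul_ne_zero (pow_ne_zero _ hb₀')
    (Finset.prod_ne_zero_iff.2 fun i hi => hb' i (Finset.mem_range.1 hi))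
  have hmem : h ∈ GD π x o J D := Set.mul_mem_mul (Set.pow_mem_pow hb₀)
    (Set.finsetProd_mem_finsetProd _ _ _ fun i hi => hb i (Finset.mem_range.1 hi))
  have hfac : ∀ z ∈ GD π x o J D, ∃ c ∈ C, z = h * c := by
    rintro z hz
    obtain ⟨a₁, ha₁, a₂, ha₂, rfl⟩ := Set.mem_mul.1 hz
    obtain ⟨c₁, hc₁, rfl⟩ := pow_fac C.toSubring (Set.range x) b₀
      (by rintro _ ⟨l, rfl⟩; exact h1 l) _ a₁ ha₁
    obtain ⟨c₂, hc₂, rfl⟩ := prod_fac C.toSubring (fun i => cen π x o (i + 1)) b J h2 a₂ ha₂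
    exact ⟨c₁ * c₂, C.mul_mem hc₁ hc₂, by rw [hh]; ring⟩
  obtain ⟨g, hg, hU⟩ := exists_U_gen hl hR _ f hf hS hfS
  obtain ⟨c, hc, hgc⟩ := hfac g hg
  have hUh : U 𝒪 (h / f) := by
    refine U.of_mul_left (hS h hmem) (hC c hc) ?_
    have e : h / f * c = g / f := by rw [hgc]; ring
    rw [e]
    exact hU
  have hUf : U 𝒪 (f / h) := by
    have := hUh.inv
    rwa [inv_div] at this
  have key := frac_of_chart (W := C) C.val (fun w => hC _ w.2) (GD π x o J D) f h hne
    (fun z hz => by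
      obtain ⟨c, hc, e⟩ := hfac z hz
      exact ⟨⟨c, hc⟩, e⟩) hfS hUf hloc
  intro y hy
  obtain ⟨a, b, hb1, hb2, e⟩ := key y hy
  exact ⟨a, a.2, b, b.2, ⟨hb1, hC _ b.2, hb2⟩, e⟩

/-- Coordinates which divide the other ones. -/
theorem exists_coords (hl : IsLoc 𝒪) (hR : ∀ r : R, algebraMap R F r ∈ 𝒪) (hf : f ≠ 0)
    (hfS : f ∈ Submodule.span R (GD π x o J D)) (hS : ∀ h ∈ GD π x o J D, h / f ∈ 𝒪)
    (hD : J + 1 ≤ D) :
    (∃ s, x s ≠ 0 ∧ ∀ l, x l / x s ∈ 𝒪) ∧
    ∀ i < J, ∃ c ∈ cen π x o (i + 1), c ≠ 0 ∧ ∀ c' ∈ cen π x o (i + 1), c' / c ∈ 𝒪 := by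
  classical
  obtain ⟨g, hg, hU⟩ := exists_U_gen hl hR _ f hf hS hfS
  have hg0 : g ≠ 0 := by
    rintro rfl
    exact hU.1 (zero_div _)
  have hq : ∀ z ∈ GD π x o J D, z / g ∈ 𝒪 := by
    intro z hz
    have e : z / g = (z / f) * (g / f)⁻¹ := by field_simp
    rw [e]
    exact 𝒪.mul_mem (hS z hz) hU.2.2
  obtain ⟨a, ha, p, hp, rfl⟩ := Set.mem_mul.1 hg
  have ha0 : a ≠ 0 := left_ne_zero_of_mul hg0
  have hp0 : p ≠ 0 := right_ne_zero_of_mul hg0
  constructor
  · obtain ⟨m, hm⟩ : ∃ m, D - J = m + 1 := ⟨D - J - 1, by omega⟩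
    have ha' := ha
    rw [hm, pow_succ, Set.mem_mul] at ha'
    obtain ⟨a₁, ha₁, _, ⟨s, rfl⟩, rfl⟩ := ha'
    have h1 : a₁ ≠ 0 := left_ne_zero_of_mul ha0
    have h2 : x s ≠ 0 := right_ne_zero_of_mul ha0
    refine ⟨s, h2, fun l => ?_⟩
    have h3 := hq (a₁ * x l * p) (Set.mul_mem_mul (by
      rw [hm, pow_succ]
      exact Set.mul_mem_mul ha₁ ⟨l, rfl⟩) hp)
    have e : a₁ * x l * p / (a₁ * x s * p) = x l / x s := by field_simp
    rwa [e] at h3
  · intro i hi
    obtain ⟨γ, hγ, hγp⟩ := (Set.mem_finsetProd _ _ _).1 hp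
    have hi' : i ∈ Finset.range J := Finset.mem_range.2 hi
    have hγ0 : ∀ j ∈ Finset.range J, γ j ≠ 0 := by
      have h1 : ∏ j ∈ Finset.range J, γ j ≠ 0 := by rw [hγp]; exact hp0
      exact Finset.prod_ne_zero_iff.1 h1
    refine ⟨γ i, hγ hi', hγ0 i hi', fun c' hc' => ?_⟩
    obtain ⟨r, hr⟩ : ∃ r : F, r = ∏ j ∈ Finset.range J \ {i}, γ j := ⟨_, rfl⟩
    have e1 : p = γ i * r := by
      rw [← hγp, hr, ← Finset.prod_update_of_mem hi' γ (γ i), Function.update_eq_self]
    have hr0 : r ≠ 0 := by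
      rw [e1] at hp0
      exact right_ne_zero_of_mul hp0
    have h3 := hq (a * (c' * r)) (Set.mul_mem_mul ha (by
      refine (Set.mem_finsetProd _ _ _).2 ⟨Function.update γ i c', ?_, ?_⟩
      · intro j hj
        by_cases hji : j = i
        · subst hji
          rw [Function.update_self]
          exact hc'
        · rw [Function.update_of_ne hji]
          exact hγ hj
      · rw [Finset.prod_update_of_mem hi', hr]))
    have hγi := hγ0 i hi'
    have e : a * (c' * r) / (a * p) = c' / γ i := by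
      rw [e1]
      field_simp
    rwa [e] at h3

end

end L364

open L364

theorem L_ok (hA : S_A) (hB : S_B) (hP : S_P) : S_L := by
  classical
  intro R F _ _ _ _ _ n π k G d x 𝒪 f D hπ hGd hnode hoff hrel hind hinj hx0 hl hR hRU hD hf hfS hS hloc
  obtain ⟨J, hJ⟩ : ∃ J, J = k / 2 := ⟨_, rfl⟩
  rw [← hJ] at hD hfS hS hloc
  have hk2 := hnode.le
  have hJ1 : 1 ≤ J := by omega
  obtain ⟨P, hPdef⟩ : ∃ P : F, P = algebraMap R F π := ⟨_, rfl⟩
  have hP0 : P ≠ 0 := by
    rw [hPdef, Ne, map_eq_zero_iff _ hinj]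
    exact hπ.ne_zero
  have hPO : P ∈ 𝒪 := by rw [hPdef]; exact hR π
  have hPU : ¬ U 𝒪 P := by
    rw [hPdef]
    exact fun h => hπ.not_isUnit (hRU π h)
  have hG0 : G ≠ 0 := by
    rintro rfl
    obtain ⟨u, hu, e⟩ := hnode.const
    unfold deh at e
    rw [map_zero, map_zero] at e
    exact mul_ne_zero (pow_ne_zero _ hπ.ne_zero) hu.ne_zero e.symm
  obtain ⟨⟨s, hs, hsl⟩, hcen⟩ := exists_coords hl hR hf hfS hS hD
  by_cases hcase : ∃ s', s' ≠ 0 ∧ x s' ≠ 0 ∧ ∀ l, x l / x s' ∈ 𝒪
  · obtain ⟨s', hs'0, hs', hsl'⟩ := hcase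
    obtain ⟨C, hC⟩ : ∃ C : Subalgebra R F, C = Algebra.adjoin R (Set.range fun j => x j / x s') := ⟨_, rfl⟩
    have hgen : ∀ j, x j / x s' ∈ C := fun j => by
      rw [hC]
      exact Algebra.subset_adjoin ⟨j, rfl⟩
    have hCO : ∀ c ∈ C, c ∈ 𝒪 := by
      intro c hc
      rw [hC] at hc
      induction hc using Algebra.adjoin_induction with
      | mem y hy => obtain ⟨j, rfl⟩ := hy; exact hsl' j
      | algebraMap r => exact hR r
      | add a b _ _ ha hb => exact 𝒪.add_mem ha hb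
      | mul a b _ _ ha hb => exact 𝒪.mul_mem ha hb
    have hfrac := frac_main hl hR hf hfS hS hloc C hCO (x s') (fun _ => x s') ⟨s', rfl⟩ hs'
      (fun _ _ => hs') (fun i _ => Set.mem_insert_of_mem _ ⟨s', hs'0, rfl⟩)
      (fun l => ⟨x l / x s', hgen l, by field_simp⟩)
      (fun i _ a ha => by
        rcases ha with rfl | ⟨l, _, rfl⟩
        · refine ⟨algebraMap R F π ^ (i + 1) * (x 0 / x s'), C.mul_mem (C.pow_mem (C.algebraMap_mem _) _) (hgen 0), ?_⟩
          field_simp
        · exact ⟨x l / x s', hgen l, by field_simp⟩)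
    rw [hC] at hfrac
    exact hP 𝒪 G d s' x hl hR hRU hG0 hGd (hoff s' hs'0) hrel hs' hsl' (hind s' hs') hfrac
  · -- the chart of `x 0`
    have hs0 : s = 0 := by
      by_contra hne
      exact hcase ⟨s, hne, hs, hsl⟩
    subst hs0
    obtain ⟨y, hy⟩ : ∃ y : {j : Fin (n + 2) // j ≠ 0} → F,
        y = fun l : {j : Fin (n + 2) // j ≠ 0} => x l.1 / x 0 := ⟨_, rfl⟩
    have hyl : ∀ l, y l = x l / x 0 := fun l => by rw [hy]
    have hxl : ∀ l : {j : Fin (n + 2) // j ≠ 0}, x l = x 0 * y l := fun l => by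
      rw [hyl]
      field_simp
    have hyO : ∀ l, y l ∈ 𝒪 := fun l => by rw [hyl]; exact hsl l
    have hyU : ∀ l, ¬ U 𝒪 (y l) := by
      intro l hU
      refine hcase ⟨l, l.2, ?_, fun j => ?_⟩
      · rw [hxl]
        exact mul_ne_zero hs hU.1
      · have e : x j / x l = (x j / x 0) * (y l)⁻¹ := by
          have := hU.1
          rw [hxl]
          field_simp
        rw [e]
        exact 𝒪.mul_mem (hsl j) hU.2.2
    have hyG : aeval y (deh 0 G) = 0 := by
      have h1 := aeval_deh 0 (fun j => x j / x 0) (div_self hs) G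
      have h2 : (fun j => x j / x 0) = fun j => x j * (x 0)⁻¹ := by
        funext j
        rw [div_eq_mul_inv]
      have h3 : aeval (fun j => x j * (x 0)⁻¹) G = 0 := by
        rw [aeval_scale x _ d G hGd, hrel, zero_mul]
      rw [hy]
      rw [h1, h2, h3]
    have hyind := hind 0 hs
    -- the largest `i`
    obtain ⟨i, hiJ, hi, himax⟩ : ∃ i, i ≤ J ∧ (∀ l, y l / P ^ i ∈ 𝒪) ∧
        ∀ j, i < j → j ≤ J → ¬ ∀ l, y l / P ^ j ∈ 𝒪 := by
      have h0 : ∀ l, y l / P ^ 0 ∈ 𝒪 := fun l => by rw [pow_zero, div_one]; exact hyO l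
      refine ⟨Nat.findGreatest (fun i => ∀ l, y l / P ^ i ∈ 𝒪) J, Nat.findGreatest_le _,
        Nat.findGreatest_spec (P := fun i => ∀ l, y l / P ^ i ∈ 𝒪) (Nat.zero_le J) h0, ?_⟩
      intro j hj hjJ hcon
      exact absurd (Nat.le_findGreatest (P := fun i => ∀ l, y l / P ^ i ∈ 𝒪) hjJ hcon) (by omega)
    rcases hiJ.eq_or_lt with rfl | hlt
    · -- last chart
      obtain ⟨z, hz⟩ : ∃ z : {j : Fin (n + 2) // j ≠ 0} → F, z = fun l => y l / P ^ i := ⟨_, rfl⟩
      have hzl : ∀ l, y l = P ^ i * z l := fun l => by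
        rw [hz]
        field_simp
      have hzO : ∀ l, z l ∈ 𝒪 := fun l => by rw [hz]; exact hi l
      obtain ⟨C, hC⟩ : ∃ C : Subalgebra R F, C = Algebra.adjoin R (Set.range z) := ⟨_, rfl⟩
      have hgen : ∀ j, z j ∈ C := fun j => by
        rw [hC]
        exact Algebra.subset_adjoin ⟨j, rfl⟩
      have hPC : P ∈ C := by rw [hPdef]; exact C.algebraMap_mem _
      have hCO : ∀ c ∈ C, c ∈ 𝒪 := by
        intro c hc
        rw [hC] at hc
        induction hc using Algebra.adjoin_induction with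
        | mem y hy => obtain ⟨j, rfl⟩ := hy; exact hzO j
        | algebraMap r => exact hR r
        | add a b _ _ ha hb => exact 𝒪.add_mem ha hb
        | mul a b _ _ ha hb => exact 𝒪.mul_mem ha hb
      have hfrac := frac_main hl hR hf hfS hS hloc C hCO (x 0) (fun j => P ^ (j + 1) * x 0) ⟨0, rfl⟩ hs
        (fun _ _ => mul_ne_zero (pow_ne_zero _ hP0) hs)
        (fun j _ => by
          left
          rw [hPdef])
        (fun l => by
          by_cases hl0 : l = 0
          · exact ⟨1, C.one_mem, by rw [hl0, mul_one]⟩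
          · refine ⟨P ^ i * z ⟨l, hl0⟩, C.mul_mem (C.pow_mem hPC _) (hgen _), ?_⟩
            rw [← hzl, ← hxl])
        (fun j hj a ha => by
          rcases ha with rfl | ⟨l, hl0, rfl⟩
          · exact ⟨1, C.one_mem, by rw [hPdef, mul_one]⟩
          · refine ⟨P ^ (i - (j + 1)) * z ⟨l, hl0⟩, C.mul_mem (C.pow_mem hPC _) (hgen _), ?_⟩
            have e : P ^ i = P ^ (j + 1) * P ^ (i - (j + 1)) := by
              rw [← pow_add]
              congr 1
              omega
            have e2 := hxl ⟨l, hl0⟩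
            rw [hzl, e] at e2
            simp only at e2
            rw [e2]
            ring)
      rw [hC] at hfrac
      refine hA π k (deh 0 G) y z 𝒪 hπ hnode hl hR hRU hyG (by rw [hy]; exact hyind) hinj (fun l => ?_) hzO hfrac
      rw [← hJ, ← hPdef]
      exact hzl l
    · -- intermediate chart
      obtain ⟨c, hc, hc0, hcO⟩ := hcen i hlt
      have hnot := himax (i + 1) (by omega) (by omega)
      have hcm : ∃ m : {j : Fin (n + 2) // j ≠ 0}, c = x m := by
        rcases hc with rfl | ⟨m, hm, rfl⟩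
        · exfalso
          refine hnot fun l => ?_
          have h1 := hcO (x l) (Set.mem_insert_of_mem _ ⟨l, l.2, rfl⟩)
          have e : x l / (algebraMap R F π ^ (i + 1) * x 0) = y l / P ^ (i + 1) := by
            rw [← hPdef, hxl]
            field_simp
          rwa [e] at h1
        · exact ⟨⟨m, hm⟩, rfl⟩
      obtain ⟨m, rfl⟩ := hcm
      have hxm : x m ≠ 0 := hc0
      obtain ⟨v, hv⟩ : ∃ v : {j : Fin (n + 2) // j ≠ 0} → F,
          v = fun l : {j : Fin (n + 2) // j ≠ 0} => x l.1 / x m.1 := ⟨_, rfl⟩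
      have hvl : ∀ l : {j : Fin (n + 2) // j ≠ 0}, x l = x m * v l := fun l => by
        rw [hv]
        field_simp
      have hvO : ∀ l, v l ∈ 𝒪 := fun l => by
        rw [hv]
        exact hcO (x l) (Set.mem_insert_of_mem _ ⟨l, l.2, rfl⟩)
      obtain ⟨w, hw⟩ : ∃ w : F, w = P ^ (i + 1) * x 0 / x m := ⟨_, rfl⟩
      have hwO : w ∈ 𝒪 := by
        rw [hw, hPdef]
        exact hcO _ (Set.mem_insert _ _)
      have hwm : P ^ (i + 1) * x 0 = x m * w := by
        rw [hw]
        field_simp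
      obtain ⟨t, ht⟩ : ∃ t : F, t = y m / P ^ i := ⟨_, rfl⟩
      have htO : t ∈ 𝒪 := by rw [ht]; exact hi m
      have hym : y m = P ^ i * t := by
        rw [ht]
        field_simp
      have hyv : ∀ l, y l = y m * v l := fun l => by
        rw [hyl, hyl, hv]
        field_simp
      have htw : t * w = P := by
        rw [ht, hw, hyl]
        field_simp
        try ring
      have hw0 : w ≠ 0 := by
        intro h0
        rw [h0, mul_zero] at htw
        exact hP0 htw.symm
      have hwU : ¬ U 𝒪 w := by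
        intro hU
        refine hnot fun l => ?_
        have e : y l / P ^ (i + 1) = v l * w⁻¹ := by
          rw [hyl, hv, hw]
          field_simp
        rw [e]
        exact 𝒪.mul_mem (hvO l) hU.2.2
      obtain ⟨C, hC⟩ : ∃ C : Subalgebra R F,
          C = Algebra.adjoin R (insert t (insert w (Set.range v))) := ⟨_, rfl⟩
      have htC : t ∈ C := by
        rw [hC]
        exact Algebra.subset_adjoin (Set.mem_insert _ _)
      have hwC : w ∈ C := by
        rw [hC]
        exact Algebra.subset_adjoin (Set.mem_insert_of_mem _ (Set.mem_insert _ _))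
      have hgen : ∀ j, v j ∈ C := fun j => by
        rw [hC]
        exact Algebra.subset_adjoin (Set.mem_insert_of_mem _ (Set.mem_insert_of_mem _ ⟨j, rfl⟩))
      have hPC : P ∈ C := by rw [hPdef]; exact C.algebraMap_mem _
      have hCO : ∀ c ∈ C, c ∈ 𝒪 := by
        intro c hc
        rw [hC] at hc
        induction hc using Algebra.adjoin_induction with
        | mem y hy =>
          rcases hy with rfl | rfl | ⟨j, rfl⟩
          · exact htO
          · exact hwO
          · exact hvO j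
        | algebraMap r => exact hR r
        | add a b _ _ ha hb => exact 𝒪.add_mem ha hb
        | mul a b _ _ ha hb => exact 𝒪.mul_mem ha hb
      have hxt : ∀ l : {j : Fin (n + 2) // j ≠ 0}, x l = x 0 * (P ^ i * t * v l) := fun l => by
        rw [hxl, hyv, hym]
      have hfrac := frac_main hl hR hf hfS hS hloc C hCO (x 0)
        (fun j => if j < i then P ^ (j + 1) * x 0 else x m) ⟨0, rfl⟩ hs
        (fun j _ => by
          split_ifs
          · exact mul_ne_zero (pow_ne_zero _ hP0) hs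
          · exact hxm)
        (fun j _ => by
          split_ifs
          · left
            rw [hPdef]
          · exact Set.mem_insert_of_mem _ ⟨m, m.2, rfl⟩)
        (fun l => by
          by_cases hl0 : l = 0
          · exact ⟨1, C.one_mem, by rw [hl0, mul_one]⟩
          · exact ⟨P ^ i * t * v ⟨l, hl0⟩, C.mul_mem (C.mul_mem (C.pow_mem hPC _) htC) (hgen _),
              hxt ⟨l, hl0⟩⟩)
        (fun j hj a ha => by
          by_cases hji : j < i
          · simp only [if_pos hji]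
            rcases ha with rfl | ⟨l, hl0, rfl⟩
            · exact ⟨1, C.one_mem, by rw [hPdef, mul_one]⟩
            · refine ⟨P ^ (i - (j + 1)) * t * v ⟨l, hl0⟩,
                C.mul_mem (C.mul_mem (C.pow_mem hPC _) htC) (hgen _), ?_⟩
              have e : P ^ i = P ^ (j + 1) * P ^ (i - (j + 1)) := by
                rw [← pow_add]
                congr 1
                omega
              have e2 := hxt ⟨l, hl0⟩
              rw [e] at e2
              simp only at e2
              rw [e2]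
              ring
          · simp only [if_neg hji]
            rcases ha with rfl | ⟨l, hl0, rfl⟩
            · refine ⟨P ^ (j - i) * w, C.mul_mem (C.pow_mem hPC _) hwC, ?_⟩
              have e : P ^ (j + 1) = P ^ (j - i) * P ^ (i + 1) := by
                rw [← pow_add]
                congr 1
                omega
              rw [← hPdef, e, mul_assoc, hwm]
              ring
            · exact ⟨v ⟨l, hl0⟩, hgen _, hvl ⟨l, hl0⟩⟩)
      rw [hC] at hfrac
      refine hB π k i (deh 0 G) y v t w m 𝒪 hπ hnode (by omega) hl hR hRU hyG (by rw [hy]; exact hyind) hinj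
        (by rw [htw, hPdef]) (by rw [← hPdef]; exact hym) hyv ?_ htO hwO hvO hwU (hyU m) hfrac
      rw [hv]
      exact div_self hxm

end Pool.Agent.U41.OD
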